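import Pool.Agent.H61HS.Rel

/-!
# The Harish-Chandra coordinates of a curve with large monodromy are algebraically independent functions
-/

set_option autoImplicit false

open Matrix

namespace Pool.Agent.H39HC

open Pool.Agent.H61HS

variable {n d : ℕ}

/-- the value of a polynomial in `x` and the entries of a matrix -/
noncomputable def evP (F : MvPolynomial (Option (Fin n × Fin n)) ℂ) (x : ℂ) (M : Matrix (Fin n) (Fin n) ℂ) : ℂ :=
  MvPolynomial.eval (fun o => o.elim x fun q => M q.1 q.2) F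

/-- the combination `∑ y_l b_l` -/
noncomputable def cb (b : Fin d → Matrix (Fin n) (Fin n) ℂ) (y : Fin d → ℂ) : Matrix (Fin n) (Fin n) ℂ := ∑ l, y l • b l

lemma cb_neg (b : Fin d → Matrix (Fin n) (Fin n) ℂ) (y : Fin d → ℂ) : cb b (-y) = -cb b y := by
  simp [cb]

/-- substitution of `g X` for `X` -/
noncomputable def subst (g : Matrix (Fin n) (Fin n) ℂ) :
    MvPolynomial (Option (Fin n × Fin n)) ℂ →ₐ[ℂ] MvPolynomial (Option (Fin n × Fin n)) ℂ :=
  MvPolynomial.aeval fun o : Option (Fin n × Fin n) =>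
    o.elim (MvPolynomial.X none) fun q => ∑ a, MvPolynomial.C (g q.1 a) * MvPolynomial.X (some (a, q.2))

lemma subst_ev (g : Matrix (Fin n) (Fin n) ℂ) (F : MvPolynomial (Option (Fin n × Fin n)) ℂ) (x : ℂ)
    (M : Matrix (Fin n) (Fin n) ℂ) : evP (subst g F) x M = evP F x (g * M) := by
  unfold evP subst
  rw [← MvPolynomial.coe_aeval_eq_eval, ← MvPolynomial.coe_aeval_eq_eval, RingHom.coe_coe, RingHom.coe_coe,
    ← AlgHom.comp_apply, MvPolynomial.comp_aeval]
  congr 2
  funext o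
  cases o with
  | none => simp
  | some q =>
    simp only [Option.elim_some, map_sum, map_mul, MvPolynomial.aeval_X, MvPolynomial.aeval_C, Matrix.mul_apply]
    rfl

/-- the polynomials of `H61HS` in the new variables -/
noncomputable def rn : MvPolynomial (Fin 1 × (Fin n × Fin n)) ℂ →ₐ[ℂ] MvPolynomial (Option (Fin n × Fin n)) ℂ :=
  MvPolynomial.rename fun q => some q.2

lemma rn_ev (F : MvPolynomial (Fin 1 × (Fin n × Fin n)) ℂ) (x : ℂ) (M : Matrix (Fin n) (Fin n) ℂ) :
    evP (rn F) x M = MvPolynomial.aeval (ent fun _ : Fin 1 => M) F := by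
  unfold evP rn
  rw [MvPolynomial.eval_rename, MvPolynomial.aeval_eq_eval]
  rfl

/-- homogenisation: from a polynomial in `x` and the coordinates to one in `x` and the entries -/
noncomputable def hom (D : MvPolynomial (Option (Fin n × Fin n)) ℂ) (T : Fin d → MvPolynomial (Option (Fin n × Fin n)) ℂ)
    (Q : MvPolynomial (Option (Fin d)) ℂ) : MvPolynomial (Option (Fin n × Fin n)) ℂ :=
  ∑ s ∈ Q.support, MvPolynomial.C (Q.coeff s) * MvPolynomial.X none ^ s none *
    (∏ l, T l ^ s (some l)) * D ^ (Q.totalDegree - ∑ l, s (some l))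

lemma hom_ev {D : MvPolynomial (Option (Fin n × Fin n)) ℂ} {T : Fin d → MvPolynomial (Option (Fin n × Fin n)) ℂ}
    (Q : MvPolynomial (Option (Fin d)) ℂ) {x : ℂ} {M : Matrix (Fin n) (Fin n) ℂ} {y : Fin d → ℂ}
    (hT : ∀ l, evP (T l) x M = evP D x M * y l) :
    evP (hom D T Q) x M = evP D x M ^ Q.totalDegree * MvPolynomial.eval (fun o => o.elim x y) Q := by
  unfold hom
  conv_rhs => rw [MvPolynomial.eval_eq']
  have h0 : ∀ F G : MvPolynomial (Option (Fin n × Fin n)) ℂ, evP (F * G) x M = evP F x M * evP G x M := fun F G => by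
    unfold evP; rw [map_mul]
  have h1 : ∀ (F : MvPolynomial (Option (Fin n × Fin n)) ℂ) (k : ℕ), evP (F ^ k) x M = evP F x M ^ k := fun F k => by
    unfold evP; rw [map_pow]
  have h2 : ∀ (F : Fin d → MvPolynomial (Option (Fin n × Fin n)) ℂ), evP (∏ l, F l) x M = ∏ l, evP (F l) x M := fun F => by
    unfold evP; rw [map_prod]
  have h3 : evP (∑ s ∈ Q.support, MvPolynomial.C (Q.coeff s) * MvPolynomial.X none ^ s none *
      (∏ l, T l ^ s (some l)) * D ^ (Q.totalDegree - ∑ l, s (some l))) x M =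
      ∑ s ∈ Q.support, evP (MvPolynomial.C (Q.coeff s) * MvPolynomial.X none ^ s none *
      (∏ l, T l ^ s (some l)) * D ^ (Q.totalDegree - ∑ l, s (some l))) x M := by
    unfold evP; rw [map_sum]
  rw [h3, Finset.mul_sum]
  refine Finset.sum_congr rfl fun s hs => ?_
  have hdeg : ∑ l, s (some l) ≤ Q.totalDegree := by
    refine le_trans ?_ (MvPolynomial.le_totalDegree hs)
    rw [Finsupp.sum_fintype _ _ (fun _ => rfl), Fintype.sum_option]
    exact Nat.le_add_left _ _
  have hC : evP (MvPolynomial.C (Q.coeff s)) x M = Q.coeff s := by unfold evP; simp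
  have hX : evP (MvPolynomial.X none : MvPolynomial (Option (Fin n × Fin n)) ℂ) x M = x := by unfold evP; simp
  rw [h0, h0, h0, h1, h1, h2, hC, hX]
  simp only [h1, hT, mul_pow]
  rw [Finset.prod_mul_distrib, Finset.prod_pow_eq_pow_sum, Fintype.prod_option]
  simp only [Option.elim_none, Option.elim_some]
  have hD : evP D x M ^ (∑ l, s (some l)) * evP D x M ^ (Q.totalDegree - ∑ l, s (some l)) =
      evP D x M ^ Q.totalDegree := by
    rw [← pow_add, Nat.add_sub_cancel' hdeg]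
  rw [← hD]
  ring

/-- what is known at a point with the period matrix `M` and the coordinates `y` -/
def Co (w : Fin n → ℤ) (p : ℤ) (U : Matrix (Fin n) (Fin n) ℂ) (b : Fin d → Matrix (Fin n) (Fin n) ℂ)
    (M : Matrix (Fin n) (Fin n) ℂ) (y : Fin d → ℂ) : Prop :=
  ∃ Y, cols w p M * Y = cols w p (IsNilpotent.exp (cb b y) * U)

/-- the data of the curve -/
structure Data (w : Fin n → ℤ) (p : ℤ) (U : Matrix (Fin n) (Fin n) ℂ) (b : Fin d → Matrix (Fin n) (Fin n) ℂ) : Prop where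
  frame : IsUnit U.det
  lowers : ∀ l, Low w 1 (U⁻¹ * b l * U)
  inj : ∀ y : Fin d → ℂ, (∀ i j, w i = p - 1 → w j = p → (U⁻¹ * cb b y * U) i j = 0) → y = 0

/-- there are numerators and denominators of the coordinates -/
theorem exists_frac {w : Fin n → ℤ} {p : ℤ} {U : Matrix (Fin n) (Fin n) ℂ} {b : Fin d → Matrix (Fin n) (Fin n) ℂ}
    (h : Data w p U b) :
    ∃ (D : MvPolynomial (Option (Fin n × Fin n)) ℂ) (T : Fin d → MvPolynomial (Option (Fin n × Fin n)) ℂ),
      ∀ (x : ℂ) (M : Matrix (Fin n) (Fin n) ℂ) (y : Fin d → ℂ), Co w p U b M y →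
        evP D x M ≠ 0 ∧ ∀ l, evP (T l) x M = evP D x M * y l := by
  have hcmb : ∀ y s, cmb (fun l (_ : Fin 1) => b l) y s = cb b y := fun y s => rfl
  obtain ⟨G, hG⟩ := exists_G w p (fun _ : Fin 1 => U) (fun l _ => b l) (by
    intro y hy
    exact h.inj y fun i j hi hj => by
      have := hy 0 i j hi hj
      rwa [hcmb] at this)
  refine ⟨rn (DD w p fun _ : Fin 1 => U), fun l => rn (TT w p (fun _ : Fin 1 => U) G l), fun x M y hy => ?_⟩
  have hP : ∀ s : Fin 1, ∃ Y, cols w p ((fun _ : Fin 1 => M) s) * Y =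
      cols w p (IsNilpotent.exp (cmb (fun l (_ : Fin 1) => b l) y s) * (fun _ : Fin 1 => U) s) := fun s => hy
  have hU : ∀ s : Fin 1, IsUnit ((fun _ : Fin 1 => U) s).det := fun _ => h.frame
  have hb : ∀ (l : Fin d) (s : Fin 1), Low w 1 (((fun _ : Fin 1 => U) s)⁻¹ * (fun l (_ : Fin 1) => b l) l s *
      (fun _ : Fin 1 => U) s) := fun l _ => h.lowers l
  refine ⟨?_, fun l => ?_⟩
  · rw [rn_ev]
    exact DD_ne hU hb hP
  · rw [rn_ev, rn_ev]
    exact TT_eval hU hb hG hP l

theorem Co.unique {w : Fin n → ℤ} {p : ℤ} {U : Matrix (Fin n) (Fin n) ℂ} {b : Fin d → Matrix (Fin n) (Fin n) ℂ}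
    (h : Data w p U b) {M : Matrix (Fin n) (Fin n) ℂ} {y y' : Fin d → ℂ} (hy : Co w p U b M y) (hy' : Co w p U b M y') :
    y = y' := by
  obtain ⟨D, T, hDT⟩ := exists_frac h
  funext l
  have h1 := hDT 0 M y hy
  have h2 := hDT 0 M y' hy'
  exact mul_left_cancel₀ h1.1 ((h1.2 l).symm.trans (h2.2 l))

lemma cb_low {w : Fin n → ℤ} {U : Matrix (Fin n) (Fin n) ℂ} {b : Fin d → Matrix (Fin n) (Fin n) ℂ}
    (hb : ∀ l, Low w 1 (U⁻¹ * b l * U)) (y : Fin d → ℂ) : Low w 1 (U⁻¹ * cb b y * U) :=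
  cmb_low (U := fun _ : Fin 1 => U) (b := fun l (_ : Fin 1) => b l) (fun l _ => hb l) y 0

/-- **Independence.** -/
theorem indep {w : Fin n → ℤ} {p : ℤ} {U : Matrix (Fin n) (Fin n) ℂ} {b : Fin d → Matrix (Fin n) (Fin n) ℂ}
    (h : Data w p U b) {V : Set ℂ} (hV : V.Infinite) (P : ℂ → Matrix (Fin n) (Fin n) ℂ) (y : ℂ → Fin d → ℂ)
    (hy : ∀ x ∈ V, Co w p U b (P x) (y x))
    (hL : ∀ F : MvPolynomial (Option (Fin n × Fin n)) ℂ, (∀ x ∈ V, evP F x (P x) = 0) →
      ∀ u : Fin d → ℂ, ∀ x ∈ V, evP F x (IsNilpotent.exp (cb b u) * P x) = 0)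
    (Q : MvPolynomial (Option (Fin d)) ℂ) (hQ : ∀ x ∈ V, MvPolynomial.eval (fun o => o.elim x (y x)) Q = 0) : Q = 0 := by
  obtain ⟨D, T, hDT⟩ := exists_frac h
  have h0 : ∀ x ∈ V, evP (hom D T Q) x (P x) = 0 := by
    intro x hx
    rw [hom_ev Q (hDT x (P x) (y x) (hy x hx)).2, hQ x hx, mul_zero]
  have h1 : ∀ u v : Fin d → ℂ, ∀ x ∈ V, evP (hom D T Q) x
      (IsNilpotent.exp (cb b u) * (IsNilpotent.exp (cb b v) * P x)) = 0 := by
    intro u v x hx
    have h2 := hL (subst (IsNilpotent.exp (cb b u)) (hom D T Q)) (fun x hx => by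
      rw [subst_ev]
      exact hL _ h0 u x hx) v x hx
    rw [subst_ev] at h2
    exact h2
  have h3 : ∀ x ∈ V, ∀ u : Fin d → ℂ, MvPolynomial.eval (fun o => o.elim x u) Q = 0 := by
    intro x hx u
    have h4 := h1 u (-(y x)) x hx
    have hCo : Co w p U b (IsNilpotent.exp (cb b u) * (IsNilpotent.exp (cb b (-(y x))) * P x)) u := by
      obtain ⟨Y, hY⟩ := hy x hx
      refine ⟨Y, ?_⟩
      rw [cb_neg, ← Matrix.mul_assoc]
      exact move h.frame (cb_low h.lowers (y x)) hY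
    rw [hom_ev Q (hDT x _ u hCo).2] at h4
    exact (mul_eq_zero.1 h4).resolve_left (pow_ne_zero _ (hDT x _ u hCo).1)
  refine MvPolynomial.funext_set (fun o : Option (Fin d) => o.elim V fun _ => Set.univ) (fun o => ?_) fun v hv => ?_
  · cases o with
    | none => exact hV
    | some l => exact Set.infinite_univ
  · rw [map_zero]
    have h5 := h3 (v none) (hv none (Set.mem_univ _)) (fun l => v (some l))
    rw [← h5]
    congr 2
    funext o
    cases o <;> rfl

end Pool.Agent.H39HC
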