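import Pool.Agent.H39HC.Indep
import Pool.Agent.Y890.MV.TorExc

/-!
# The Harish-Chandra coordinates on a subvariety with large monodromy are algebraically independent functions

The same as `Pool.Agent.H39HC.Indep`, for several variables.
-/

set_option autoImplicit false
set_option linter.unusedSectionVars false

open Matrix

namespace Pool.Agent.H39HC

open Pool.Agent.H61HS
open Pool.Agent.Y890.MV (evM evX TorM ev_sum)

variable {n d : ℕ} {X : Type} [Fintype X]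

/-- the value of a polynomial in `x` and the entries of a matrix -/
noncomputable def evQ (F : MvPolynomial (X ⊕ (Fin n × Fin n)) ℂ) (x : X → ℂ) (M : Matrix (Fin n) (Fin n) ℂ) : ℂ :=
  MvPolynomial.eval (Sum.elim x fun q => M q.1 q.2) F

/-- substitution of `g M` for `M` -/
noncomputable def substQ (g : Matrix (Fin n) (Fin n) ℂ) :
    MvPolynomial (X ⊕ (Fin n × Fin n)) ℂ →ₐ[ℂ] MvPolynomial (X ⊕ (Fin n × Fin n)) ℂ :=
  MvPolynomial.aeval (Sum.elim (fun i => MvPolynomial.X (Sum.inl i))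
    fun q => ∑ a, MvPolynomial.C (g q.1 a) * MvPolynomial.X (Sum.inr (a, q.2)))

lemma substQ_ev (g : Matrix (Fin n) (Fin n) ℂ) (F : MvPolynomial (X ⊕ (Fin n × Fin n)) ℂ) (x : X → ℂ)
    (M : Matrix (Fin n) (Fin n) ℂ) : evQ (substQ g F) x M = evQ F x (g * M) := by
  unfold evQ substQ
  rw [← MvPolynomial.coe_aeval_eq_eval, ← MvPolynomial.coe_aeval_eq_eval, RingHom.coe_coe, RingHom.coe_coe,
    ← AlgHom.comp_apply, MvPolynomial.comp_aeval]
  congr 2
  funext o
  rcases o with i | q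
  · simp
  · simp only [Sum.elim_inr, map_sum, map_mul, MvPolynomial.aeval_X, MvPolynomial.aeval_C, Matrix.mul_apply]
    rfl

/-- the polynomials of `H61HS` in the new variables -/
noncomputable def rnQ : MvPolynomial (Fin 1 × (Fin n × Fin n)) ℂ →ₐ[ℂ] MvPolynomial (X ⊕ (Fin n × Fin n)) ℂ :=
  MvPolynomial.rename fun q => Sum.inr q.2

lemma rnQ_ev (F : MvPolynomial (Fin 1 × (Fin n × Fin n)) ℂ) (x : X → ℂ) (M : Matrix (Fin n) (Fin n) ℂ) :
    evQ (rnQ F) x M = MvPolynomial.aeval (ent fun _ : Fin 1 => M) F := by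
  unfold evQ rnQ
  rw [MvPolynomial.eval_rename, MvPolynomial.aeval_eq_eval]
  rfl

/-- homogenisation: from a polynomial in the coordinates and `x` to one in `x` and the entries -/
noncomputable def homQ (D : MvPolynomial (X ⊕ (Fin n × Fin n)) ℂ) (T : Fin d → MvPolynomial (X ⊕ (Fin n × Fin n)) ℂ)
    (Q : MvPolynomial (Fin d ⊕ X) ℂ) : MvPolynomial (X ⊕ (Fin n × Fin n)) ℂ :=
  ∑ s ∈ Q.support, MvPolynomial.C (Q.coeff s) * (∏ i, MvPolynomial.X (Sum.inl i) ^ s (Sum.inr i)) *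
    (∏ l, T l ^ s (Sum.inl l)) * D ^ (Q.totalDegree - ∑ l, s (Sum.inl l))

lemma homQ_ev {D : MvPolynomial (X ⊕ (Fin n × Fin n)) ℂ} {T : Fin d → MvPolynomial (X ⊕ (Fin n × Fin n)) ℂ}
    (Q : MvPolynomial (Fin d ⊕ X) ℂ) {x : X → ℂ} {M : Matrix (Fin n) (Fin n) ℂ} {y : Fin d → ℂ}
    (hT : ∀ l, evQ (T l) x M = evQ D x M * y l) :
    evQ (homQ D T Q) x M = evQ D x M ^ Q.totalDegree * MvPolynomial.eval (Sum.elim y x) Q := by
  unfold homQ
  conv_rhs => rw [MvPolynomial.eval_eq']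
  have h0 : ∀ F G : MvPolynomial (X ⊕ (Fin n × Fin n)) ℂ, evQ (F * G) x M = evQ F x M * evQ G x M := fun F G => by
    unfold evQ; rw [map_mul]
  have h1 : ∀ (F : MvPolynomial (X ⊕ (Fin n × Fin n)) ℂ) (k : ℕ), evQ (F ^ k) x M = evQ F x M ^ k := fun F k => by
    unfold evQ; rw [map_pow]
  have h2 : ∀ (F : Fin d → MvPolynomial (X ⊕ (Fin n × Fin n)) ℂ), evQ (∏ l, F l) x M = ∏ l, evQ (F l) x M := fun F => by
    unfold evQ; rw [map_prod]
  have h2' : ∀ (F : X → MvPolynomial (X ⊕ (Fin n × Fin n)) ℂ), evQ (∏ l, F l) x M = ∏ l, evQ (F l) x M := fun F => by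
    unfold evQ; rw [map_prod]
  have h3 : evQ (∑ s ∈ Q.support, MvPolynomial.C (Q.coeff s) * (∏ i, MvPolynomial.X (Sum.inl i) ^ s (Sum.inr i)) *
      (∏ l, T l ^ s (Sum.inl l)) * D ^ (Q.totalDegree - ∑ l, s (Sum.inl l))) x M =
      ∑ s ∈ Q.support, evQ (MvPolynomial.C (Q.coeff s) * (∏ i, MvPolynomial.X (Sum.inl i) ^ s (Sum.inr i)) *
      (∏ l, T l ^ s (Sum.inl l)) * D ^ (Q.totalDegree - ∑ l, s (Sum.inl l))) x M := by
    unfold evQ; rw [map_sum]
  rw [h3, Finset.mul_sum]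
  refine Finset.sum_congr rfl fun s hs => ?_
  have hdeg : ∑ l, s (Sum.inl l) ≤ Q.totalDegree := by
    refine le_trans ?_ (MvPolynomial.le_totalDegree hs)
    rw [Finsupp.sum_fintype _ _ (fun _ => rfl), Fintype.sum_sum_type]
    exact Nat.le_add_right _ _
  have hC : evQ (MvPolynomial.C (Q.coeff s)) x M = Q.coeff s := by unfold evQ; simp
  have hX : ∀ i, evQ (MvPolynomial.X (Sum.inl i) : MvPolynomial (X ⊕ (Fin n × Fin n)) ℂ) x M = x i := fun i => by
    unfold evQ; simp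
  rw [h0, h0, h0, h1, h2, h2', hC]
  simp only [h1, hX, hT, mul_pow]
  rw [Finset.prod_mul_distrib, Finset.prod_pow_eq_pow_sum, Fintype.prod_sum_type]
  simp only [Sum.elim_inl, Sum.elim_inr]
  have hD : evQ D x M ^ (∑ l, s (Sum.inl l)) * evQ D x M ^ (Q.totalDegree - ∑ l, s (Sum.inl l)) =
      evQ D x M ^ Q.totalDegree := by
    rw [← pow_add, Nat.add_sub_cancel' hdeg]
  rw [← hD]
  ring

/-- there are numerators and denominators of the coordinates -/
theorem exists_fracQ (X : Type) [Fintype X] {w : Fin n → ℤ} {p : ℤ} {U : Matrix (Fin n) (Fin n) ℂ}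
    {b : Fin d → Matrix (Fin n) (Fin n) ℂ} (h : Data w p U b) :
    ∃ (D : MvPolynomial (X ⊕ (Fin n × Fin n)) ℂ) (T : Fin d → MvPolynomial (X ⊕ (Fin n × Fin n)) ℂ),
      ∀ (x : X → ℂ) (M : Matrix (Fin n) (Fin n) ℂ) (y : Fin d → ℂ), Co w p U b M y →
        evQ D x M ≠ 0 ∧ ∀ l, evQ (T l) x M = evQ D x M * y l := by
  have hcmb : ∀ y s, cmb (fun l (_ : Fin 1) => b l) y s = cb b y := fun y s => rfl
  obtain ⟨G, hG⟩ := exists_G w p (fun _ : Fin 1 => U) (fun l _ => b l) (by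
    intro y hy
    exact h.inj y fun i j hi hj => by
      have := hy 0 i j hi hj
      rwa [hcmb] at this)
  refine ⟨rnQ (DD w p fun _ : Fin 1 => U), fun l => rnQ (TT w p (fun _ : Fin 1 => U) G l), fun x M y hy => ?_⟩
  have hP : ∀ s : Fin 1, ∃ Y, cols w p ((fun _ : Fin 1 => M) s) * Y =
      cols w p (IsNilpotent.exp (cmb (fun l (_ : Fin 1) => b l) y s) * (fun _ : Fin 1 => U) s) := fun s => hy
  have hU : ∀ s : Fin 1, IsUnit ((fun _ : Fin 1 => U) s).det := fun _ => h.frame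
  have hb : ∀ (l : Fin d) (s : Fin 1), Low w 1 (((fun _ : Fin 1 => U) s)⁻¹ * (fun l (_ : Fin 1) => b l) l s *
      (fun _ : Fin 1 => U) s) := fun l _ => h.lowers l
  refine ⟨?_, fun l => ?_⟩
  · rw [rnQ_ev]
    exact DD_ne hU hb hP
  · rw [rnQ_ev, rnQ_ev]
    exact TT_eval hU hb hG hP l

/-- **Independence.** -/
theorem indepQ {w : Fin n → ℤ} {p : ℤ} {U : Matrix (Fin n) (Fin n) ℂ} {b : Fin d → Matrix (Fin n) (Fin n) ℂ}
    (h : Data w p U b) {V : Set (X → ℂ)} (hVo : IsOpen V) (hVn : V.Nonempty) (P : (X → ℂ) → Matrix (Fin n) (Fin n) ℂ)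
    (y : (X → ℂ) → Fin d → ℂ) (hy : ∀ x ∈ V, Co w p U b (P x) (y x))
    (hL : ∀ F : MvPolynomial (X ⊕ (Fin n × Fin n)) ℂ, (∀ x ∈ V, evQ F x (P x) = 0) →
      ∀ u : Fin d → ℂ, ∀ x ∈ V, evQ F x (IsNilpotent.exp (cb b u) * P x) = 0)
    (Q : MvPolynomial (Fin d ⊕ X) ℂ) (hQ : ∀ x ∈ V, MvPolynomial.eval (Sum.elim (y x) x) Q = 0) : Q = 0 := by
  obtain ⟨D, T, hDT⟩ := exists_fracQ X h
  have h0 : ∀ x ∈ V, evQ (homQ D T Q) x (P x) = 0 := by
    intro x hx
    rw [homQ_ev Q (hDT x (P x) (y x) (hy x hx)).2, hQ x hx, mul_zero]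
  have h1 : ∀ u v : Fin d → ℂ, ∀ x ∈ V, evQ (homQ D T Q) x
      (IsNilpotent.exp (cb b u) * (IsNilpotent.exp (cb b v) * P x)) = 0 := by
    intro u v x hx
    have h2 := hL (substQ (IsNilpotent.exp (cb b u)) (homQ D T Q)) (fun x hx => by
      rw [substQ_ev]
      exact hL _ h0 u x hx) v x hx
    rw [substQ_ev] at h2
    exact h2
  have h3 : ∀ x ∈ V, ∀ u : Fin d → ℂ, MvPolynomial.eval (Sum.elim u x) Q = 0 := by
    intro x hx u
    have h4 := h1 u (-(y x)) x hx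
    have hCo : Co w p U b (IsNilpotent.exp (cb b u) * (IsNilpotent.exp (cb b (-(y x))) * P x)) u := by
      obtain ⟨Y, hY⟩ := hy x hx
      refine ⟨Y, ?_⟩
      rw [cb_neg, ← Matrix.mul_assoc]
      exact move h.frame (cb_low h.lowers (y x)) hY
    rw [homQ_ev Q (hDT x _ u hCo).2] at h4
    exact (mul_eq_zero.1 h4).resolve_left (pow_ne_zero _ (hDT x _ u hCo).1)
  obtain ⟨x₀, hx₀⟩ := hVn
  obtain ⟨r, hr, hball⟩ := Metric.isOpen_iff.1 hVo x₀ hx₀
  refine MvPolynomial.funext_set (Sum.elim (fun _ : Fin d => (Set.univ : Set ℂ)) fun i => Metric.ball (x₀ i) r)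
    (fun o => ?_) fun v hv => ?_
  · rcases o with l | i
    · exact Set.infinite_univ
    · exact infinite_of_mem_nhds (x₀ i) (Metric.ball_mem_nhds _ hr)
  · rw [map_zero]
    have hvV : (fun i => v (Sum.inr i)) ∈ V := by
      apply hball
      rw [Metric.mem_ball, dist_pi_lt_iff hr]
      intro i
      exact hv (Sum.inr i) (Set.mem_univ _)
    have h5 := h3 _ hvV (fun l => v (Sum.inl l))
    rw [← h5]
    congr 2
    funext o
    rcases o with l | i <;> rfl

/-- the torsor of independent functions -/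
theorem torM_univ {V : Set (X → ℂ)} (f : Fin d → (X → ℂ) → ℂ)
    (hf : ∀ Q : MvPolynomial (Fin d ⊕ X) ℂ, (∀ x ∈ V, MvPolynomial.eval (Sum.elim (fun l => f l x) x) Q = 0) → Q = 0) :
    TorM V f (fun _ => Set.univ) where
  self := fun _ _ => Set.mem_univ _
  inv := by
    intro p hp x hx Y _
    have h1 : (MvPolynomial.sumAlgEquiv ℂ (Fin d) X).symm p = 0 := by
      refine hf _ fun x hx => ?_
      have h2 := ev_sum (f := f) (id : Fin d → Fin d) ((MvPolynomial.sumAlgEquiv ℂ (Fin d) X).symm p) x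
      rw [AlgEquiv.apply_symm_apply, MvPolynomial.rename_id_apply] at h2
      simp only [id] at h2
      rw [← h2]
      exact hp x hx
    have h3 : p = 0 := by
      have h4 := congrArg (MvPolynomial.sumAlgEquiv ℂ (Fin d) X) h1
      rwa [AlgEquiv.apply_symm_apply, map_zero] at h4
    rw [h3]
    exact MvPolynomial.eval₂_zero _ _
  path := by
    intro x hx Y _
    refine ⟨fun l => Polynomial.C (f l x) + Polynomial.X * Polynomial.C (Y l - f l x), fun l => by simp,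
      fun l => by simp, fun t => Set.mem_univ _⟩
  sec := by
    refine ⟨1, one_ne_zero, fun x0 _ _ Y0 _ => ⟨fun l => MvPolynomial.C (Y0 l), fun x _ _ => Set.mem_univ _,
      fun l => by simp⟩⟩

end Pool.Agent.H39HC
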